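import Pool.Agent.Helper34.CAR.GoalsB

/-!
# Project CAR, packet CAR-SYS: the recursion
-/

set_option autoImplicit false

open Filter Topology

namespace Pool.Agent.Helper32.CAR

open Pool.Agent.Helper34.CAR

section sep

variable {S B : Type} [Fintype S] [DecidableEq S] [CStarAlgebra B]

theorem mt_continuous : Continuous (fun f : S → S → B => (Mt.of f : Mt S B)) := by
  rw [continuous_iff_continuousAt]
  intro f
  rw [ContinuousAt, tendsto_iff_norm_sub_tendsto_zero]
  have h1 : Tendsto (fun g : S → S → B => ∑ i, ∑ j, ‖g i j - f i j‖) (𝓝 f) (𝓝 0) := by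
    have h2 : Continuous (fun g : S → S → B => ∑ i, ∑ j, ‖g i j - f i j‖) := by
      refine continuous_finset_sum _ fun i _ => continuous_finset_sum _ fun j _ => ?_
      exact ((continuous_apply_apply i j).sub continuous_const).norm
    have h3 := h2.tendsto f
    have h4 : (∑ i, ∑ j, ‖f i j - f i j‖) = 0 := by simp
    rwa [h4] at h3
  refine squeeze_zero (fun g => norm_nonneg _) (fun g => ?_) h1
  refine (Mt.norm_le_sum _).trans (le_of_eq ?_)
  refine Finset.sum_congr rfl fun i _ => Finset.sum_congr rfl fun j _ => ?_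
  rw [Mt.sub_apply, Mt.of_apply, Mt.of_apply]

theorem mt_separable [TopologicalSpace.SeparableSpace B] :
    TopologicalSpace.SeparableSpace (Mt S B) := by
  have h1 : Function.Surjective (fun f : S → S → B => (Mt.of f : Mt S B)) :=
    fun a => ⟨fun i j => a i j, Mt.ext fun i j => rfl⟩
  exact h1.denseRange.separableSpace mt_continuous

end sep

section recursion

variable {B : Type} [CStarAlgebra B]

/-- The state of the recursion. -/
structure St (B : Type) [CStarAlgebra B] where
  S : Type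
  fS : Fintype S
  dS : DecidableEq S
  v : Mt S B
  hv1 : star v * v = 1
  hv2 : v * star v = 1
  G : ℕ → ℕ → Mt S B

instance (σ : St B) : Fintype σ.S := σ.fS
instance (σ : St B) : DecidableEq σ.S := σ.dS

/-- The finite set of elements at step `i`. -/
noncomputable def St.F (σ : St B) (i : ℕ) : Finset (Mt σ.S B) :=
  open Classical in
  (Finset.range (i + 1) ×ˢ Finset.range (i + 1)).image fun q => σ.G q.1 q.2

theorem St.mem_F (σ : St B) {i j m : ℕ} (hj : j ≤ i) (hm : m ≤ i) : σ.G j m ∈ σ.F i := by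
  classical
  unfold St.F
  refine Finset.mem_image.2 ⟨(j, m), ?_, rfl⟩
  rw [Finset.mem_product, Finset.mem_range, Finset.mem_range]
  exact ⟨Nat.lt_succ_of_le hj, Nat.lt_succ_of_le hm⟩

/-- The data of a step. -/
structure StepD (θ : B →⋆ₐ[ℂ] B) (σ : St B) (i : ℕ) where
  a : ℕ
  C : Type
  fC : Fintype C
  dC : DecidableEq C
  c0 : C
  c1 : C
  K : B →⋆ₐ[ℂ] Mt C B
  w : Mt C B
  v' : Mt (σ.S × C) B
  card : Fintype.card C = 2 ^ a
  step : StepAt θ ∅ 1 C c0 c1 K w
  hv1 : star v' * v' = 1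
  hv2 : v' * star v' = 1
  comp : ∀ x : σ.S → σ.S → ℂ, ∃ x' : σ.S × C → σ.S × C → ℂ,
    kapF K (star σ.v * Mt.scal x * σ.v) = star v' * Mt.scal x' * v'
  approx : ∀ g ∈ σ.F i, ∃ x' : σ.S × C → σ.S × C → ℂ,
    ‖kapF K g - star v' * Mt.scal x' * v'‖ < 1 / ((i : ℝ) + 1)

theorem exists_stepD (hS : S_SYS1) {θ : B →⋆ₐ[ℂ] B} (hθ : StepProp B θ) (σ : St B) (i : ℕ) :
    Nonempty (StepD θ σ i) := by
  obtain ⟨a, C, fC, dC, c0, c1, K, w, v', h1, h2, h3, h4, h5, h6⟩ :=
    hS B θ hθ σ.S σ.v σ.hv1 σ.hv2 (σ.F i) (1 / ((i : ℝ) + 1)) (by positivity)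
  exact ⟨⟨a, C, fC, dC, c0, c1, K, w, v', h1, h2, h3, h4, h5, h6⟩⟩

variable [TopologicalSpace.SeparableSpace B]

/-- A dense sequence of matrices. -/
noncomputable def dsq (S : Type) [Fintype S] [DecidableEq S] : ℕ → Mt S B :=
  haveI : TopologicalSpace.SeparableSpace (Mt S B) := mt_separable
  TopologicalSpace.denseSeq (Mt S B)

theorem dsq_dense (S : Type) [Fintype S] [DecidableEq S] : DenseRange (dsq (B := B) S) :=
  haveI : TopologicalSpace.SeparableSpace (Mt S B) := mt_separable
  TopologicalSpace.denseRange_denseSeq (Mt S B)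

/-- The first state. -/
noncomputable def st0 : St B where
  S := Unit
  fS := inferInstance
  dS := inferInstance
  v := 1
  hv1 := by rw [star_one, one_mul]
  hv2 := by rw [star_one, one_mul]
  G _ m := dsq Unit m

variable (hS : S_SYS1) {θ : B →⋆ₐ[ℂ] B} (hθ : StepProp B θ)

/-- The chosen step. -/
noncomputable def stp (σ : St B) (i : ℕ) : StepD θ σ i :=
  Classical.choice (exists_stepD hS hθ σ i)

instance (σ : St B) (i : ℕ) (D : StepD θ σ i) : Fintype D.C := D.fC
instance (σ : St B) (i : ℕ) (D : StepD θ σ i) : DecidableEq D.C := D.dC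

/-- The next state. -/
noncomputable def nxt (σ : St B) (i : ℕ) (D : StepD θ σ i) : St B where
  S := σ.S × D.C
  fS := inferInstance
  dS := inferInstance
  v := D.v'
  hv1 := D.hv1
  hv2 := D.hv2
  G j m := if j ≤ i then kapF D.K (σ.G j m) else dsq (σ.S × D.C) m

/-- The states. -/
noncomputable def st : ℕ → St B
  | 0 => st0
  | i + 1 => nxt (st i) i (stp hS hθ (st i) i)

/-- The steps. -/
noncomputable def sd (i : ℕ) : StepD θ (st hS hθ i) i := stp hS hθ (st hS hθ i) i

/-- The system. -/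
noncomputable def sys : Sys B θ where
  S i := (st hS hθ i).S
  fS i := (st hS hθ i).fS
  dS i := (st hS hθ i).dS
  C i := (sd hS hθ i).C
  fC i := (sd hS hθ i).fC
  dC i := (sd hS hθ i).dC
  s0 := ()
  uniq := fun _ => rfl
  e _ := Equiv.refl _
  c0 i := (sd hS hθ i).c0
  c1 i := (sd hS hθ i).c1
  card i := ⟨(sd hS hθ i).a, (sd hS hθ i).card⟩
  K i := (sd hS hθ i).K
  w i := (sd hS hθ i).w
  step i := (sd hS hθ i).step

theorem sys_κ (i : ℕ) (a : (sys hS hθ).A i) :
    (sys hS hθ).κ i a = kapF (sd hS hθ i).K (show Mt (st hS hθ i).S B from a) := rfl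

theorem G_dense (j : ℕ) : DenseRange ((st hS hθ j).G j) := by
  cases j with
  | zero => exact dsq_dense Unit
  | succ j =>
    have h1 : (st hS hθ (j + 1)).G (j + 1) = dsq ((st hS hθ j).S × (sd hS hθ j).C) := by
      funext m
      change (if j + 1 ≤ j then _ else _) = _
      rw [if_neg (by omega)]
      rfl
    rw [h1]
    exact dsq_dense _

theorem G_succ (i j m : ℕ) (h : j ≤ i) :
    (st hS hθ (i + 1)).G j m = kapF (sd hS hθ i).K ((st hS hθ i).G j m) := by
  change (if j ≤ i then _ else _) = _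
  rw [if_pos h]
  rfl

theorem push_G (j m : ℕ) (d : ℕ) :
    (sys hS hθ).push j d (show (sys hS hθ).A j from (st hS hθ j).G j m) =
      (show (sys hS hθ).A (j + d) from (st hS hθ (j + d)).G j m) := by
  induction d with
  | zero => rfl
  | succ d ih =>
    change (sys hS hθ).κ (j + d) ((sys hS hθ).push j d _) = (st hS hθ (j + d + 1)).G j m
    rw [ih, G_succ hS hθ (j + d) j m (by omega)]
    rfl

omit [TopologicalSpace.SeparableSpace B] in
theorem push_norm {θ : B →⋆ₐ[ℂ] B} (s : Sys B θ) (j : ℕ) (a b : s.A j) (d : ℕ) :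
    ‖s.push j d a - s.push j d b‖ ≤ ‖a - b‖ := by
  induction d with
  | zero => exact le_rfl
  | succ d ih =>
    change ‖s.κ (j + d) (s.push j d a) - s.κ (j + d) (s.push j d b)‖ ≤ _
    rw [← map_sub]
    exact (NonUnitalStarAlgHom.norm_apply_le (s.κ (j + d)) _).trans ih

theorem sys_matricial : (sys hS hθ).Matricial := by
  refine ⟨fun i => (st hS hθ i).v, fun i => ⟨(st hS hθ i).hv1, (st hS hθ i).hv2⟩, ?_, ?_⟩
  · intro i x
    exact (sd hS hθ i).comp x
  · intro j a ε hε
    have hd : ∃ m : ℕ, ‖a - (show (sys hS hθ).A j from (st hS hθ j).G j m)‖ < ε / 2 := by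
      have h1 := (G_dense hS hθ j).exists_dist_lt (show Mt (st hS hθ j).S B from a) (half_pos hε)
      obtain ⟨m, hm⟩ := h1
      exact ⟨m, by rw [← dist_eq_norm]; exact hm⟩
    obtain ⟨m, hm⟩ := hd
    obtain ⟨n, hn⟩ := exists_nat_one_div_lt (half_pos hε)
    set d : ℕ := m + n with hdd
    have hF := (st hS hθ (j + d)).mem_F (i := j + d) (j := j) (m := m) (by omega) (by omega)
    obtain ⟨x, hx⟩ := (sd hS hθ (j + d)).approx _ hF
    refine ⟨d + 1, x, ?_⟩
    have h1 := push_norm (sys hS hθ) j a (show (sys hS hθ).A j from (st hS hθ j).G j m) (d + 1)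
    rw [push_G] at h1
    have h2 : (st hS hθ (j + (d + 1))).G j m =
        kapF (sd hS hθ (j + d)).K ((st hS hθ (j + d)).G j m) :=
      G_succ hS hθ (j + d) j m (by omega)
    have h3 : (1 : ℝ) / (((j + d : ℕ) : ℝ) + 1) ≤ 1 / ((n : ℝ) + 1) := by
      refine one_div_le_one_div_of_le (by positivity) ?_
      have : (n : ℝ) ≤ ((j + d : ℕ) : ℝ) := by
        exact_mod_cast (by omega : n ≤ j + d)
      linarith
    have h4 : ‖(show (sys hS hθ).A (j + (d + 1)) from (st hS hθ (j + (d + 1))).G j m) -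
        star (show (sys hS hθ).A (j + (d + 1)) from (st hS hθ (j + (d + 1))).v) *
          (Mt.scal x : (sys hS hθ).A (j + (d + 1))) *
          (show (sys hS hθ).A (j + (d + 1)) from (st hS hθ (j + (d + 1))).v)‖ < ε / 2 := by
      have h5 : ‖kapF (sd hS hθ (j + d)).K ((st hS hθ (j + d)).G j m) -
        star (sd hS hθ (j + d)).v' * Mt.scal x * (sd hS hθ (j + d)).v'‖ < ε / 2 :=
        lt_of_lt_of_le hx (h3.trans hn.le)
      rw [← h2] at h5
      exact h5
    have h6 := norm_sub_le_norm_sub_add_norm_sub ((sys hS hθ).push j (d + 1) a)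
      (show (sys hS hθ).A (j + (d + 1)) from (st hS hθ (j + (d + 1))).G j m)
      (star (show (sys hS hθ).A (j + (d + 1)) from (st hS hθ (j + (d + 1))).v) *
          (Mt.scal x : (sys hS hθ).A (j + (d + 1))) *
          (show (sys hS hθ).A (j + (d + 1)) from (st hS hθ (j + (d + 1))).v))
    calc _ ≤ _ := h6
      _ < ε := by linarith [h1.trans_lt hm]

end recursion

/-- Packet CAR-SYS. -/
theorem h_sys (hS : S_SYS1) : Pool.Agent.Helper34.CAR.S_SYS := by
  intro B _ _ θ hθ
  exact ⟨sys hS hθ, sys_matricial hS hθ⟩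

end Pool.Agent.Helper32.CAR
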