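import Pool.Agent.Helper34.CAR.GoalsB
import Pool.Agent.Helper42.Uct.QT
import Mathlib.Analysis.CStarAlgebra.lpSpace

/-!
# Project CAR, packet CAR-IL: inductive limits of unital C*-algebras
-/

set_option autoImplicit false
set_option linter.style.haveILetI false

open Filter Topology
open scoped ENNReal

namespace Pool.Agent.Helper32.CAR

section unit

/-- A C*-algebra with a unit element. -/
@[reducible] noncomputable def mkUnital (X : Type) [R : NonUnitalCStarAlgebra X] (e : X)
    (h1 : ∀ x, e * x = x) (h2 : ∀ x, x * e = x) : CStarAlgebra X :=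
  letI N : NormedRing X :=
    { (inferInstance : NonUnitalNormedRing X) with
      one := e
      one_mul := h1
      mul_one := h2 }
  letI Al : Algebra ℂ X := Algebra.ofModule (fun r x y => smul_mul_assoc r x y)
    (fun r x y => mul_smul_comm r x y)
  { N, (inferInstance : StarRing X), (inferInstance : CompleteSpace X),
    (inferInstance : CStarRing X), Al, (inferInstance : StarModule ℂ X) with
    norm_smul_le := norm_smul_le }

end unit

section thr

variable {A : ℕ → Type} [∀ i, NonUnitalCStarAlgebra (A i)] (κ : ∀ i, A i →⋆ₙₐ[ℂ] A (i + 1))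

/-- The thread which starts at `a : A i`. -/
noncomputable def thr (i : ℕ) (a : A i) : ∀ j, A j
  | 0 => if h : i = 0 then h ▸ a else 0
  | j + 1 => if h : i = j + 1 then h ▸ a else κ j (thr i a j)

theorem thr_self (i : ℕ) (a : A i) : thr κ i a i = a := by
  cases i with
  | zero => simp [thr]
  | succ i => simp [thr]

theorem thr_succ (i : ℕ) (a : A i) {j : ℕ} (h : i ≤ j) :
    thr κ i a (j + 1) = κ j (thr κ i a j) := by
  have h1 : i ≠ j + 1 := by omega
  simp [thr, h1]

theorem thr_lt (i : ℕ) (a : A i) {j : ℕ} (h : j < i) : thr κ i a j = 0 := by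
  induction j with
  | zero =>
    have h1 : i ≠ 0 := by omega
    simp [thr, h1]
  | succ j ih =>
    have h1 : i ≠ j + 1 := by omega
    simp only [thr, h1, dif_neg, not_false_eq_true]
    rw [ih (by omega), map_zero]

/-- Two threads which agree from some place on. -/
theorem thr_shift (i : ℕ) (a : A i) {j : ℕ} (h : i + 1 ≤ j) :
    thr κ (i + 1) (κ i a) j = thr κ i a j := by
  induction j, h using Nat.le_induction with
  | base => rw [thr_self, thr_succ κ i a le_rfl, thr_self]
  | succ j hj ih => rw [thr_succ κ (i + 1) _ hj, thr_succ κ i a (by omega), ih]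

theorem thr_add (i : ℕ) (a b : A i) (j : ℕ) :
    thr κ i (a + b) j = thr κ i a j + thr κ i b j := by
  rcases lt_or_ge j i with h | h
  · rw [thr_lt κ i _ h, thr_lt κ i _ h, thr_lt κ i _ h, add_zero]
  · induction j, h using Nat.le_induction with
    | base => rw [thr_self, thr_self, thr_self]
    | succ j hj ih => rw [thr_succ κ i _ hj, thr_succ κ i _ hj, thr_succ κ i _ hj, ih, map_add]

theorem thr_mul (i : ℕ) (a b : A i) (j : ℕ) :
    thr κ i (a * b) j = thr κ i a j * thr κ i b j := by
  rcases lt_or_ge j i with h | h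
  · rw [thr_lt κ i _ h, thr_lt κ i _ h, thr_lt κ i _ h, mul_zero]
  · induction j, h using Nat.le_induction with
    | base => rw [thr_self, thr_self, thr_self]
    | succ j hj ih => rw [thr_succ κ i _ hj, thr_succ κ i _ hj, thr_succ κ i _ hj, ih, map_mul]

theorem thr_star (i : ℕ) (a : A i) (j : ℕ) :
    thr κ i (star a) j = star (thr κ i a j) := by
  rcases lt_or_ge j i with h | h
  · rw [thr_lt κ i _ h, thr_lt κ i _ h, star_zero]
  · induction j, h using Nat.le_induction with
    | base => rw [thr_self, thr_self]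
    | succ j hj ih => rw [thr_succ κ i _ hj, thr_succ κ i _ hj, ih, map_star]

theorem thr_smul (i : ℕ) (c : ℂ) (a : A i) (j : ℕ) :
    thr κ i (c • a) j = c • thr κ i a j := by
  rcases lt_or_ge j i with h | h
  · rw [thr_lt κ i _ h, thr_lt κ i _ h, smul_zero]
  · induction j, h using Nat.le_induction with
    | base => rw [thr_self, thr_self]
    | succ j hj ih => rw [thr_succ κ i _ hj, thr_succ κ i _ hj, ih, map_smul]

theorem thr_zero (i : ℕ) (j : ℕ) : thr κ i 0 j = 0 := by
  have h := thr_smul κ i 0 0 j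
  rw [zero_smul, zero_smul] at h
  exact h

theorem thr_norm (hκ : ∀ i, Function.Injective (κ i)) (i : ℕ) (a : A i) {j : ℕ} (h : i ≤ j) :
    ‖thr κ i a j‖ = ‖a‖ := by
  induction j, h using Nat.le_induction with
  | base => rw [thr_self]
  | succ j hj ih => rw [thr_succ κ i _ hj, NonUnitalStarAlgHom.norm_map _ (hκ j), ih]

theorem thr_norm_le (hκ : ∀ i, Function.Injective (κ i)) (i : ℕ) (a : A i) (j : ℕ) :
    ‖thr κ i a j‖ ≤ ‖a‖ := by
  rcases lt_or_ge j i with h | h
  · rw [thr_lt κ i _ h, norm_zero]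
    exact norm_nonneg _
  · exact (thr_norm κ hκ i a h).le

theorem thr_mem (hκ : ∀ i, Function.Injective (κ i)) (i : ℕ) (a : A i) :
    Memℓp (thr κ i a) ∞ := by
  refine memℓp_infty ⟨‖a‖, ?_⟩
  rintro _ ⟨j, rfl⟩
  exact thr_norm_le κ hκ i a j

/-- The null sequences. -/
def nul (A : ℕ → Type) [∀ i, NonUnitalCStarAlgebra (A i)] : Submodule ℂ (lp A ∞) where
  carrier := {f | Tendsto (fun j => ‖f j‖) atTop (𝓝 0)}
  add_mem' := by
    intro f g hf hg
    refine squeeze_zero (fun j => norm_nonneg _) (fun j => norm_add_le (f j) (g j)) ?_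
    have := Tendsto.add hf hg
    rwa [add_zero] at this
  zero_mem' := by
    change Tendsto (fun j => ‖(0 : lp A ∞) j‖) atTop (𝓝 0)
    simp
  smul_mem' := by
    intro c f hf
    change Tendsto (fun j => ‖(c • f) j‖) atTop (𝓝 0)
    have h1 : (fun j => ‖(c • f) j‖) = fun j => ‖c‖ * ‖f j‖ := by
      funext j
      rw [lp.coeFn_smul, Pi.smul_apply, norm_smul]
    rw [h1]
    have := Tendsto.const_mul ‖c‖ hf
    rwa [mul_zero] at this

theorem mem_nul {f : lp A ∞} : f ∈ nul A ↔ Tendsto (fun j => ‖f j‖) atTop (𝓝 0) := Iff.rfl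

theorem nul_closed : IsClosed (nul A : Set (lp A ∞)) := by
  rw [← isSeqClosed_iff_isClosed]
  intro u f hu huf
  change Tendsto (fun j => ‖f j‖) atTop (𝓝 0)
  rw [Metric.tendsto_atTop]
  intro ε hε
  rw [tendsto_iff_norm_sub_tendsto_zero, Metric.tendsto_atTop] at huf
  obtain ⟨n, hn⟩ := huf (ε / 2) (half_pos hε)
  have h1 := hn n le_rfl
  have h2 : Tendsto (fun j => ‖u n j‖) atTop (𝓝 0) := hu n
  rw [Metric.tendsto_atTop] at h2
  obtain ⟨m, hm⟩ := h2 (ε / 2) (half_pos hε)
  refine ⟨m, fun j hj => ?_⟩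
  have h3 := hm j hj
  rw [dist_zero_right, norm_norm] at h1 h3 ⊢
  have h4 : ‖(u n - f) j‖ ≤ ‖u n - f‖ := lp.norm_apply_le_norm ENNReal.top_ne_zero _ j
  rw [lp.coeFn_sub, Pi.sub_apply] at h4
  have h5 : ‖f j‖ ≤ ‖u n j‖ + ‖u n j - f j‖ := by
    have h6 : f j = u n j - (u n j - f j) := by abel
    calc ‖f j‖ = ‖u n j - (u n j - f j)‖ := by rw [← h6]
      _ ≤ _ := norm_sub_le _ _
  linarith

theorem nul_ideal (f : lp A ∞) (hf : f ∈ nul A) (g : lp A ∞) : g * f ∈ nul A ∧ f * g ∈ nul A := by
  have h0 : Tendsto (fun j => ‖f j‖) atTop (𝓝 0) := hf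
  constructor
  · have h1 : Tendsto (fun j => ‖g‖ * ‖f j‖) atTop (𝓝 0) := by
      have := Tendsto.const_mul ‖g‖ h0
      rwa [mul_zero] at this
    refine squeeze_zero (fun j => norm_nonneg _) (fun j => ?_) h1
    rw [lp.infty_coeFn_mul, Pi.mul_apply]
    exact (norm_mul_le _ _).trans (mul_le_mul_of_nonneg_right
      (lp.norm_apply_le_norm ENNReal.top_ne_zero g j) (norm_nonneg _))
  · have h1 : Tendsto (fun j => ‖f j‖ * ‖g‖) atTop (𝓝 0) := by
      have := Tendsto.mul_const ‖g‖ h0
      rwa [zero_mul] at this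
    refine squeeze_zero (fun j => norm_nonneg _) (fun j => ?_) h1
    rw [lp.infty_coeFn_mul, Pi.mul_apply]
    exact (norm_mul_le _ _).trans (mul_le_mul_of_nonneg_left
      (lp.norm_apply_le_norm ENNReal.top_ne_zero g j) (norm_nonneg _))

theorem nul_star (f : lp A ∞) (hf : f ∈ nul A) : star f ∈ nul A := by
  have h0 : Tendsto (fun j => ‖f j‖) atTop (𝓝 0) := hf
  change Tendsto (fun j => ‖(star f) j‖) atTop (𝓝 0)
  have h1 : (fun j => ‖(star f) j‖) = fun j => ‖f j‖ := by
    funext j
    rw [lp.star_apply, norm_star]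
  rw [h1]
  exact h0

/-- The inductive limit, not unital. -/
theorem il0 (hκ : ∀ i, Function.Injective (κ i)) :
    ∃ (L : Type) (_ : NonUnitalCStarAlgebra L) (ι : ∀ i, A i →⋆ₙₐ[ℂ] L),
      (∀ i a, ι (i + 1) (κ i a) = ι i a) ∧ (∀ i, Function.Injective (ι i)) ∧
      Dense (⋃ i, Set.range (ι i)) := by
  obtain ⟨B', iB', π, hπs, hπ⟩ := Pool.Agent.Helper42.Uct.stmtQT (lp A ∞) (nul A) nul_closed
    nul_ideal nul_star
  let T : ∀ i, A i → lp A ∞ := fun i a => ⟨thr κ i a, thr_mem κ hκ i a⟩
  have hT : ∀ i (a : A i) j, T i a j = thr κ i a j := fun i a j => rfl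
  let ι₀ : ∀ i, A i →⋆ₙₐ[ℂ] B' := fun i =>
    { toFun := fun a => π (T i a)
      map_smul' := fun c a => by
        have : T i (c • a) = c • T i a := by
          ext j
          rw [hT, lp.coeFn_smul, Pi.smul_apply, hT, thr_smul]
        change π (T i (c • a)) = c • π (T i a)
        rw [this, map_smul]
      map_zero' := by
        have : T i 0 = 0 := by
          ext j
          rw [hT, thr_zero]
          rfl
        rw [this, map_zero]
      map_add' := fun a b => by
        have : T i (a + b) = T i a + T i b := by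
          ext j
          rw [hT, lp.coeFn_add, Pi.add_apply, hT, hT, thr_add]
        rw [this, map_add]
      map_mul' := fun a b => by
        have : T i (a * b) = T i a * T i b := by
          ext j
          rw [hT, lp.infty_coeFn_mul, Pi.mul_apply, hT, hT, thr_mul]
        rw [this, map_mul]
      map_star' := fun a => by
        have : T i (star a) = star (T i a) := by
          ext j
          rw [hT, lp.star_apply, hT, thr_star]
        rw [this, map_star] }
  have hι : ∀ i a, ι₀ i a = π (T i a) := fun i a => rfl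
  have hcomp : ∀ i a, ι₀ (i + 1) (κ i a) = ι₀ i a := by
    intro i a
    rw [hι, hι, ← sub_eq_zero, ← map_sub, hπ, mem_nul]
    refine tendsto_const_nhds.congr' ?_
    filter_upwards [eventually_ge_atTop (i + 1)] with j hj
    rw [lp.coeFn_sub, Pi.sub_apply, hT, hT, thr_shift κ i a hj, sub_self, norm_zero]
  have hinj : ∀ i, Function.Injective (ι₀ i) := by
    intro i
    rw [injective_iff_map_eq_zero]
    intro a ha
    rw [hι, hπ, mem_nul] at ha
    have h1 : Tendsto (fun j => ‖T i a j‖) atTop (𝓝 ‖a‖) := by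
      refine tendsto_const_nhds.congr' ?_
      filter_upwards [eventually_ge_atTop i] with j hj
      rw [hT, thr_norm κ hκ i a hj]
    exact norm_eq_zero.1 (tendsto_nhds_unique h1 ha)
  have hmono : ∀ i j, i ≤ j → Set.range (ι₀ i) ⊆ Set.range (ι₀ j) := by
    intro i j hij
    induction j, hij using Nat.le_induction with
    | base => exact subset_rfl
    | succ j hj ih =>
      refine ih.trans ?_
      rintro _ ⟨a, rfl⟩
      exact ⟨κ j a, hcomp j a⟩
  have hdir : ∀ x ∈ ⋃ i, Set.range (ι₀ i), ∀ y ∈ ⋃ i, Set.range (ι₀ i),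
      ∃ i, ∃ a b : A i, ι₀ i a = x ∧ ι₀ i b = y := by
    intro x hx y hy
    obtain ⟨i, hi⟩ := Set.mem_iUnion.1 hx
    obtain ⟨j, hj⟩ := Set.mem_iUnion.1 hy
    obtain ⟨a, ha⟩ := hmono i (max i j) (le_max_left _ _) hi
    obtain ⟨b, hb⟩ := hmono j (max i j) (le_max_right _ _) hj
    exact ⟨max i j, a, b, ha, hb⟩
  let U : NonUnitalStarSubalgebra ℂ B' :=
    { carrier := ⋃ i, Set.range (ι₀ i)
      add_mem' := by
        intro x y hx hy
        obtain ⟨i, a, b, rfl, rfl⟩ := hdir x hx y hy
        exact Set.mem_iUnion.2 ⟨i, a + b, map_add _ _ _⟩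
      zero_mem' := Set.mem_iUnion.2 ⟨0, 0, map_zero _⟩
      mul_mem' := by
        intro x y hx hy
        obtain ⟨i, a, b, rfl, rfl⟩ := hdir x hx y hy
        exact Set.mem_iUnion.2 ⟨i, a * b, map_mul _ _ _⟩
      smul_mem' := by
        intro c x hx
        obtain ⟨i, a, rfl⟩ := Set.mem_iUnion.1 hx
        exact Set.mem_iUnion.2 ⟨i, c • a, map_smul _ _ _⟩
      star_mem' := by
        intro x hx
        obtain ⟨i, a, rfl⟩ := Set.mem_iUnion.1 hx
        exact Set.mem_iUnion.2 ⟨i, star a, map_star _ _⟩ }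
  have hcl : IsClosed (U.topologicalClosure : Set B') :=
    NonUnitalStarSubalgebra.isClosed_topologicalClosure U
  have hmem : ∀ i a, ι₀ i a ∈ U.topologicalClosure := fun i a =>
    U.le_topologicalClosure (Set.mem_iUnion.2 ⟨i, a, rfl⟩)
  let ι : ∀ i, A i →⋆ₙₐ[ℂ] U.topologicalClosure := fun i =>
    NonUnitalStarAlgHom.codRestrict (ι₀ i) U.topologicalClosure (hmem i)
  have hιc : ∀ i a, ((ι i a : U.topologicalClosure) : B') = ι₀ i a := fun i a => rfl
  refine ⟨U.topologicalClosure, NonUnitalStarSubalgebra.nonUnitalCStarAlgebra _, ι, ?_, ?_, ?_⟩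
  · intro i a
    exact Subtype.ext (hcomp i a)
  · intro i a b hab
    exact hinj i (congrArg Subtype.val hab)
  · rw [Subtype.dense_iff]
    intro x hx
    have h1 : (Subtype.val '' (⋃ i, Set.range (ι i)) : Set B') = ⋃ i, Set.range (ι₀ i) := by
      rw [Set.image_iUnion]
      refine Set.iUnion_congr fun i => ?_
      rw [← Set.range_comp]
      rfl
    exact (congrArg (fun S : Set B' => x ∈ closure S) h1).mpr hx

end thr

/-- Packet CAR-IL. -/
theorem il : Pool.Agent.Helper34.CAR.S_IL := by
  intro A _ κ hκ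
  let κ' : ∀ i, A i →⋆ₙₐ[ℂ] A (i + 1) := fun i => (κ i : A i →⋆ₙₐ[ℂ] A (i + 1))
  obtain ⟨L, iL, ι, hc, hi, hd⟩ := il0 κ' hκ
  have hc' : ∀ i a, ι (i + 1) (κ i a) = ι i a := hc
  set e : L := ι 0 1 with he
  have he' : ∀ i, ι i 1 = e := by
    intro i
    induction i with
    | zero => rfl
    | succ i ih =>
      have h3 : κ i 1 = 1 := map_one (κ i)
      rw [← ih, ← hc' i 1, h3]
  have h1 : ∀ x : L, e * x = x := by
    intro x
    have hcl : IsClosed {x : L | e * x = x} :=
      isClosed_eq (continuous_const.mul continuous_id) continuous_id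
    have hsub : (⋃ i, Set.range (ι i)) ⊆ {x : L | e * x = x} := by
      intro y hy
      obtain ⟨i, a, rfl⟩ := Set.mem_iUnion.1 hy
      change e * ι i a = ι i a
      rw [← he' i, ← map_mul, one_mul]
    exact hcl.closure_subset_iff.2 hsub (hd x)
  have h2 : ∀ x : L, x * e = x := by
    intro x
    have hcl : IsClosed {x : L | x * e = x} :=
      isClosed_eq (continuous_id.mul continuous_const) continuous_id
    have hsub : (⋃ i, Set.range (ι i)) ⊆ {x : L | x * e = x} := by
      intro y hy
      obtain ⟨i, a, rfl⟩ := Set.mem_iUnion.1 hy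
      change ι i a * e = ι i a
      rw [← he' i, ← map_mul, mul_one]
    exact hcl.closure_subset_iff.2 hsub (hd x)
  letI C : CStarAlgebra L := mkUnital L e h1 h2
  let ι' : ∀ i, A i →⋆ₐ[ℂ] L := fun i =>
    { toFun := ι i
      map_one' := he' i
      map_mul' := map_mul (ι i)
      map_zero' := map_zero (ι i)
      map_add' := map_add (ι i)
      commutes' := fun c => by
        rw [Algebra.algebraMap_eq_smul_one, Algebra.algebraMap_eq_smul_one]
        exact (map_smul (ι i) c 1).trans (congrArg (fun y : L => c • y) (he' i))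
      map_star' := map_star (ι i) }
  exact ⟨L, C, ι', hc', hi, hd⟩

end Pool.Agent.Helper32.CAR
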